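import Pool.Agent.H937.AF.Move
import Pool.Graph.R_seed8.TH176.FB.J25
import Pool.Graph.R_seed8.Y76.NQ.Expl
import Pool.Graph.R_seed8.H350R3.MG.PLem

/-!
# Fat points with algebraically independent coordinates, in all dimensions
-/

set_option autoImplicit false

namespace Pool.Agent.H937.OS

open MvPolynomial Finset Pool.Agent.TH206.Fro Pool.Agent.TH176.FB

/-- the rank is the maximal one off a hypersurface over the integers -/
theorem rank_gen (n r D : ℕ) (d : Fin r → ℕ) : ∃ (N : ℕ) (Φ : MvPolynomial (Fin r × Fin n) ℤ),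
    Φ ≠ 0 ∧ (∃ p : Fin r → Fin n → ℂ, Module.finrank ℂ (ik (fun i => lf (p i) ^ d i) D) = N) ∧
      ∀ (F : Type) [Field F] [CharZero F] (q : Fin r → Fin n → F),
      Module.finrank F (ik (fun i => lf (q i) ^ d i) D) ≤ N ∧
      (eval₂Hom (Int.castRingHom F) (fun x : Fin r × Fin n => q x.1 x.2) Φ ≠ 0 →
        Module.finrank F (ik (fun i => lf (q i) ^ d i) D) = N) := by
  classical
  have hom : ∀ (F : Type) [Field F] (q : Fin r → Fin n → F) (i : Fin r),
      (lf (q i) ^ d i).IsHomogeneous (d i) := by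
    intro F _ q i
    have h := (lf_hom (q i)).pow (d i)
    rwa [one_mul] at h
  -- the maximal rank over the complex numbers
  have hbd : ∀ q : Fin r → Fin n → ℂ, Module.finrank ℂ (ik (fun i => lf (q i) ^ d i) D) ≤
      Module.finrank ℂ (homogeneousSubmodule (Fin n) ℂ D) := fun q =>
    Submodule.finrank_mono inf_le_right
  obtain ⟨p, hp⟩ : ∃ p : Fin r → Fin n → ℂ, ∀ q : Fin r → Fin n → ℂ,
      Module.finrank ℂ (ik (fun i => lf (q i) ^ d i) D) ≤
        Module.finrank ℂ (ik (fun i => lf (p i) ^ d i) D) := by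
    by_contra hcon
    push Not at hcon
    have hall : ∀ k : ℕ, ∃ q : Fin r → Fin n → ℂ,
        k ≤ Module.finrank ℂ (ik (fun i => lf (q i) ^ d i) D) := by
      intro k
      induction k with
      | zero => exact ⟨fun _ _ => 0, Nat.zero_le _⟩
      | succ k ih =>
        obtain ⟨q, hq⟩ := ih
        obtain ⟨q', hq'⟩ := hcon q
        exact ⟨q', by omega⟩
    obtain ⟨q, hq⟩ := hall (Module.finrank ℂ (homogeneousSubmodule (Fin n) ℂ D) + 1)
    have := hbd q
    omega
  let T : Io n d → MvPolynomial (Fin r × Fin n) ℤ := fun s =>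
    coeff s.2.1 ((∑ j, C (X (s.1, j)) * X j :
      MvPolynomial (Fin n) (MvPolynomial (Fin r × Fin n) ℤ)) ^ d s.1)
  have hT : ∀ (F : Type) [Field F] (q : Fin r → Fin n → F) (s : Io n d),
      eval₂Hom (Int.castRingHom F) (fun x : Fin r × Fin n => q x.1 x.2) (T s) =
        (lf (q s.1) ^ d s.1).coeff s.2.1 := by
    intro F _ q s
    show eval₂Hom (Int.castRingHom F) (fun x : Fin r × Fin n => q x.1 x.2) (coeff s.2.1 _) = _
    rw [← coeff_map, map_pow, map_sum]
    congr 2
    unfold lf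
    refine Finset.sum_congr rfl fun j _ => ?_
    rw [map_mul, map_C, map_X, eval₂Hom_X']
  obtain ⟨f, g, hfg⟩ := exists_minor
    (Mx d D (fun s : Io n d => (lf (p s.1) ^ d s.1).coeff s.2.1)) _ le_rfl
  have hev : ∀ (F : Type) [Field F] (q : Fin r → Fin n → F),
      eval₂Hom (Int.castRingHom F) (fun x : Fin r × Fin n => q x.1 x.2)
        ((Mx d D T).submatrix f g).det =
        ((Mx d D (fun s : Io n d => (lf (q s.1) ^ d s.1).coeff s.2.1)).submatrix f g).det := by
    intro F _ q
    rw [RingHom.map_det]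
    congr 1
    ext i j
    simp only [RingHom.mapMatrix_apply, Matrix.map_apply, Matrix.submatrix_apply]
    unfold Mx
    split_ifs with h
    · exact hT F q _
    · exact map_zero _
  have hne : ((Mx d D T).submatrix f g).det ≠ 0 := by
    intro h
    apply hfg
    rw [← hev ℂ p, h, map_zero]
  refine ⟨Module.finrank ℂ (ik (fun i => lf (p i) ^ d i) D), ((Mx d D T).submatrix f g).det, hne,
    ⟨p, rfl⟩, fun F _ _ q => ?_⟩
  have h1 : Module.finrank F (ik (fun i => lf (q i) ^ d i) D) ≤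
      Module.finrank ℂ (ik (fun i => lf (p i) ^ d i) D) := by
    obtain ⟨q', hq'⟩ := Pool.Agent.H937.AF.pow_transfer ℂ F n r D d q
    exact hq'.trans (hp q')
  refine ⟨h1, fun hq => le_antisymm h1 ?_⟩
  unfold ik
  rw [hilb_thm n D r d ℂ _ (hom ℂ p), hilb_thm n D r d F _ (hom F q)]
  refine rank_ge_of_minor _ _ f g ?_
  rw [← hev F q]
  exact hq

/-- multiplicities above `D + 1` -/
theorem fat_min {K : Type} [Field K] [CharZero K] {n r D : ℕ} (w : Fin r → ℕ)
    (p : Fin r → Fin n → K) :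
    Module.finrank K (fat D w p) =
      Module.finrank K (fat D (fun i => D + 1 - (D + 1 - w i)) p) := by
  by_cases h : ∃ i, D + 1 < w i
  · obtain ⟨i, hi⟩ := h
    have h1 : fat D w p ≤ fat D (fun i => D + 1 - (D + 1 - w i)) p := by
      rintro F ⟨hF, hF'⟩
      refine ⟨hF, fun j s hs => hF' j s ?_⟩
      have hs2 : s.degree < D + 1 - (D + 1 - w j) := hs
      omega
    have h2 := emsalem_iarrobino D (fun i => D + 1 - w i) p
    have h3 : ik (fun i => lf (p i) ^ (D + 1 - w i)) D = homogeneousSubmodule (Fin n) K D := by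
      refine le_antisymm inf_le_right (le_inf ?_ le_rfl)
      intro F _
      rw [Submodule.restrictScalars_mem]
      have h4 : (1 : MvPolynomial (Fin n) K) ∈
          Ideal.span (Set.range fun i => lf (p i) ^ (D + 1 - w i)) := by
        refine Ideal.subset_span ⟨i, ?_⟩
        show lf (p i) ^ (D + 1 - w i) = 1
        rw [show D + 1 - w i = 0 by omega, pow_zero]
      rw [(Ideal.eq_top_iff_one _).2 h4]
      exact Submodule.mem_top
    rw [h3] at h2
    have h5 : Module.finrank K (fat D (fun i => D + 1 - (D + 1 - w i)) p) = 0 := by omega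
    have hfd : FiniteDimensional K (fat D (fun i => D + 1 - (D + 1 - w i)) p) :=
      Submodule.finiteDimensional_of_le (S₂ := homogeneousSubmodule (Fin n) K D) fun F hF => hF.1
    have h6 := Submodule.finrank_mono h1
    omega
  · push Not at h
    have : (fun i => D + 1 - (D + 1 - w i)) = w := by
      funext i
      have := h i
      omega
    rw [this]

/-- duality -/
theorem rank_fat {K : Type} [Field K] [CharZero K] {n r D : ℕ} (w : Fin r → ℕ)
    (p : Fin r → Fin n → K) :
    Module.finrank K (ik (fun i => lf (p i) ^ (D + 1 - w i)) D) + Module.finrank K (fat D w p) =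
      Module.finrank K (homogeneousSubmodule (Fin n) K D) := by
  have h := emsalem_iarrobino D (fun i => D + 1 - w i) p
  rw [fat_min w p]
  exact h

theorem forms_eq {r n D : ℕ} (w : Fin r → ℕ) (v : Fin r → Fin (n + 1) → ℂ) (hv : ∀ i, v i ≠ 0) :
    (homogeneousSubmodule (Fin (n + 1)) ℂ D ⊓ Submodule.restrictScalars ℂ
      (⨅ i, Pool.Agent.H350R3.MG.primeIdeal (Projectivization.mk ℂ (v i) (hv i)) ^ w i) :
        Submodule ℂ (MvPolynomial (Fin (n + 1)) ℂ)) = fat D w v := by
  ext F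
  rw [Submodule.mem_inf, Submodule.restrictScalars_mem, Submodule.mem_iInf]
  have key : F ∈ homogeneousSubmodule (Fin (n + 1)) ℂ D → ∀ i,
      (F ∈ Pool.Agent.H350R3.MG.primeIdeal (Projectivization.mk ℂ (v i) (hv i)) ^ w i ↔
        ∀ s : Fin (n + 1) →₀ ℕ, s.degree < w i → coeff s (shift (v i) F) = 0) := by
    intro hF i
    rw [Pool.Agent.H350R3.MG.primeIdeal_mk]
    exact mem_pow_iff_vanishes (hv i) hF
  constructor
  · rintro ⟨h1, h2⟩
    exact ⟨(mem_homogeneousSubmodule _ _).1 h1, fun i => (key h1 i).1 (h2 i)⟩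
  · rintro ⟨h1, h2⟩
    have h1' : F ∈ homogeneousSubmodule (Fin (n + 1)) ℂ D := (mem_homogeneousSubmodule _ _).2 h1
    exact ⟨h1', fun i => (key h1' i).2 (h2 i)⟩

/-- the number of the conditions -/
theorem upper (n r D : ℕ) (w : Fin r → ℕ) (hn : 1 ≤ n) (v : Fin r → Fin (n + 1) → ℂ) :
    Module.finrank ℂ (ik (fun i => lf (v i) ^ (D + 1 - w i)) D) ≤
      ∑ i, (w i + (n - 1)).choose n := by
  classical
  have hom : ∀ i : Fin r, (lf (v i) ^ (D + 1 - w i)).IsHomogeneous (D + 1 - w i) := by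
    intro i
    have h := (lf_hom (v i)).pow (D + 1 - w i)
    rwa [one_mul] at h
  unfold ik
  rw [hilb_thm (n + 1) D r (fun i => D + 1 - w i) ℂ _ hom]
  refine (Matrix.rank_le_card_height _).trans ?_
  rw [card_Ro_choose n r D _ hn]
  refine Finset.sum_le_sum fun i _ => Nat.choose_le_choose _ ?_
  omega

/-- The values of the Hilbert functions off a hypersurface over the integers. -/
theorem value (n r D : ℕ) (w : Fin r → ℕ) :
    ∃ (N : ℕ) (Φ : MvPolynomial (Fin r × Fin (n + 1)) ℤ), Φ ≠ 0 ∧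
      (∀ (v : Fin r → Fin (n + 1) → ℂ) (hv : ∀ i, v i ≠ 0),
        eval₂Hom (Int.castRingHom ℂ) (fun x : Fin r × Fin (n + 1) => v x.1 x.2) Φ ≠ 0 →
          (Module.finrank ℂ (homogeneousSubmodule (Fin (n + 1)) ℂ D) : ℤ) -
            Module.finrank ℂ (homogeneousSubmodule (Fin (n + 1)) ℂ D ⊓ Submodule.restrictScalars ℂ
              (⨅ i, Pool.Agent.H350R3.MG.primeIdeal (Projectivization.mk ℂ (v i) (hv i)) ^ w i) :
                Submodule ℂ (MvPolynomial (Fin (n + 1)) ℂ)) = N) ∧
      (∀ (F : Type) [Field F] [CharZero F] (q : Fin r → Fin (n + 1) → F),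
        Module.finrank F (homogeneousSubmodule (Fin (n + 1)) F D) ≤
          N + Module.finrank F (fat D w q)) ∧
      N ≤ (D + n).choose n ∧ (1 ≤ n → N ≤ ∑ i, (w i + (n - 1)).choose n) := by
  obtain ⟨N, Φ, h0, ⟨p, hp⟩, h⟩ := rank_gen (n + 1) r D (fun i => D + 1 - w i)
  refine ⟨N, Φ, h0, fun v hv hΦ => ?_, fun F _ _ q => ?_, ?_, fun hn => ?_⟩
  · rw [forms_eq w v hv]
    have h1 := (h ℂ v).2 hΦ
    have h2 := rank_fat (D := D) w v
    rw [h1] at h2
    rw [← h2]
    push_cast
    ring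
  · have h1 := (h F q).1
    have h2 := rank_fat (D := D) w q
    omega
  · rw [← hp, ← card_Mon_choose n D, ← dim_thm (n + 1) D ℂ]
    exact Submodule.finrank_mono inf_le_right
  · rw [← hp]
    exact upper n r D w hn p

/-- a nonzero polynomial over the integers does not vanish at independent numbers -/
theorem indep_ne {σ : Type} {x : σ → ℂ} (hx : AlgebraicIndependent ℚ x) {Φ : MvPolynomial σ ℤ}
    (h0 : Φ ≠ 0) : eval₂Hom (Int.castRingHom ℂ) x Φ ≠ 0 := by
  intro h1
  apply h0
  rw [algebraicIndependent_iff] at hx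
  have h2 := hx (MvPolynomial.map (Int.castRingHom ℚ) Φ) (by
    rw [← h1, MvPolynomial.aeval_def, MvPolynomial.eval₂_map]
    show eval₂ _ _ _ = eval₂ _ _ _
    congr 1)
  exact MvPolynomial.map_injective _ (RingHom.injective_int (Int.castRingHom ℚ))
    (by rw [h2, map_zero])

open Pool.Agent.TH176.RK in
/-- The expected values for at least `3 ^ n` points. -/
theorem bounds (k r D : ℕ) (w : Fin r → ℕ) (u : ℝ) (hu0 : 3 ≤ u) (hu : u ^ (k + 2) = r) :
    ∃ (N : ℕ) (Φ : MvPolynomial (Fin r × Fin (k + 2 + 1)) ℤ), Φ ≠ 0 ∧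
      (∀ (v : Fin r → Fin (k + 2 + 1) → ℂ) (hv : ∀ i, v i ≠ 0),
        eval₂Hom (Int.castRingHom ℂ) (fun x : Fin r × Fin (k + 2 + 1) => v x.1 x.2) Φ ≠ 0 →
          (Module.finrank ℂ (homogeneousSubmodule (Fin (k + 2 + 1)) ℂ D) : ℤ) -
            Module.finrank ℂ (homogeneousSubmodule (Fin (k + 2 + 1)) ℂ D ⊓
              Submodule.restrictScalars ℂ
              (⨅ i, Pool.Agent.H350R3.MG.primeIdeal (Projectivization.mk ℂ (v i) (hv i)) ^ w i) :
                Submodule ℂ (MvPolynomial (Fin (k + 2 + 1)) ℂ)) = N) ∧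
      (u ^ (k + 1) * D < ∑ i, (w i : ℝ) → N = (D + (k + 2)).choose (k + 2)) ∧
      ∀ W : ℕ, (∀ i, w i ≤ W) → u * (W + k + 1) + k < D →
        N = ∑ i, (w i + (k + 2 - 1)).choose (k + 2) := by
  obtain ⟨N, Φ, h0, h1, h2, h3, h4⟩ := value (k + 2) r D w
  refine ⟨N, Φ, h0, h1, fun h => le_antisymm h3 ?_, fun W hW h => le_antisymm (h4 (by omega)) ?_⟩
  · obtain ⟨K, _, _, p, hp⟩ := fat_empty k r D w u hu0 hu h
    have h5 := h2 K p
    rw [hp, finrank_bot, add_zero] at h5
    rwa [← card_Mon_choose (k + 2) D, ← dim_thm (k + 2 + 1) D K]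
  · obtain ⟨K, _, _, p, hp⟩ := fat_ind k r D W w u hu0 hu hW h
    have h5 := h2 K p
    have h6 : Module.finrank K (homogeneousSubmodule (Fin (k + 2 + 1)) K D) =
        (D + (k + 2)).choose (k + 2) := by
      rw [← card_Mon_choose (k + 2) D, ← dim_thm (k + 2 + 1) D K]
    rw [h6] at h5
    have h9 := hp.trans h5
    rw [Nat.add_comm N] at h9
    exact Nat.le_of_add_le_add_left h9

end Pool.Agent.H937.OS
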